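import Pool.Agent.Zk98.MF
import Pool.Agent.Results.MP_3550b5_nt.BestApproximations

/-!
# Schneider's conjecture in families of elliptic curves with sections, at ALL parameters near the tuples of large divisors,
# and near the tuples of multiplicative orders

A `Family d r` (see `Pool.Agent.Y732.Defs3`) is a Weierstrass equation over `ℤ[t₁, …, t_d]` with `r` sections, all
homogeneous for some weights of the parameters; `F.K` is the height pairing of the sections over the function field.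
`F.Marked v`: the member at `v` is an elliptic curve and the `r` points are in lowest terms and nonsingular modulo all
primes. `Schneider F X T v` (starting file `BestApproximations`): the member at `v` is not marked, or for ALL primes `p` with
`5 ≤ p ≤ X` at which it is ordinary, the `p`-adic regulators of the `r` points and, if the rank is `r`, of the curve do not
vanish and have norm greater than `1 / ⌊T⌋`.

Let `P_1, …, P_d` be chains of exponents at least `δ` (`Pool.Agent.Zk98.MD.PChain`): set valued functions such as the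
divisors `≥ m ^ δ` of `m` and of all integers within a power of `log m` of `m`, the orders modulo `p` of ALL integers `a` with
`2 ≤ |a| ≤ p ^ c` for a prime `m = p` (`δ = (1 - c) / 2`), and their compositions. Let `α_1, …, α_d` be nonzero real numbers,
and let `d σ + 5 κ < min (ρ, δ) / r`, `κ, σ ≥ 0`, `0 ≤ ρ ≤ 1`. For all `m` in `[1, N]^d` but `O (N ^ (d - η))`:
`Schneider F (|v| ^ κ) (|v| ^ ρ) v` for ALL integral vectors `v` with `|v_i - α_i w_i| ≤ c (max w) ^ σ` for all `i`, for EVERY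
tuple `w` with `w_i ∈ P_i (m_i)` for all `i`, for example for every tuple of divisors `w_i ≥ m_i ^ δ` of the `m_i`, and for
every tuple of orders modulo the `m_i` if they are primes.

The starting results bound the number of the exceptional parameters in boxes with all sides at least `N₀` by
`N₀ ^ (- 1 / r)` times the volume. Proof: these bounds in boxes with different sides, between `N ^ δ` and `N`
(`DBox`), and partial summation: a tuple `w` is divisible into at most `N ^ d / ∏ w_i` of the `m` (`Pool/Agent/Zk98/MD`, `ME`,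
`MF`).
-/

set_option autoImplicit false

namespace Pool.Agent.Results.MP_3550b5_nt.DivisorsAndOrders

open Finset
open Pool.Agent.Y732 Pool.Agent.R89.SR
open Pool.Agent.Zk98.MD (DBox dbox_fin PChain tuples)
open Pool.Agent.Results.MP_3550b5_nt.BestApproximations (large_mono sum_primes)

/-- the natural numbers in a short interval -/
lemma card_near {x R : ℝ} (hR : 0 ≤ R) (S : Finset ℕ) (hS : ∀ w ∈ S, |(w : ℝ) - x| ≤ R) :
    (S.card : ℝ) ≤ 2 * R + 1 := Pool.Agent.Zk98.MD.card_near hR S hS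

open scoped Classical in
/-- the exceptional parameters in boxes with different sides -/
lemma box_count {d r : ℕ} (F : Family d r) (hr : 0 < r) (hK : F.K.det ≠ 0) {κ ρ : ℝ} (hκ : 0 ≤ κ)
    {Y Z : ℝ} (hY : 0 ≤ Y) (hρ : 0 ≤ ρ) (T : ℕ) (n : Fin d → ℕ) (hTn : ∀ l, T ≤ 2 * n l + 1)
    (hTZ : (T : ℝ) ≤ Z ^ ρ) (hZ : 0 ≤ Z) (S : Set (Fin d → ℤ))
    (hS : ∀ v ∈ S, (¬ BestApproximations.Schneider F (‖v‖ ^ κ) (‖v‖ ^ ρ) v) ∧ Z ≤ ‖v‖ ∧ ‖v‖ ≤ Y ∧ ∀ l, (v l).natAbs ≤ n l) :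
    S.Finite ∧ (S.ncard : ℝ) * (T : ℝ) ^ ((1 : ℝ) / r) ≤
      2 * (2 ^ d * r * |(F.K.det : ℝ)| * Y ^ (5 * κ) * ∏ l, ((2 * n l + 1 : ℕ) : ℝ)) := by
  obtain ⟨P, hP⟩ : ∃ P, P = (Finset.range (⌊Y ^ κ⌋₊ + 1)).filter (fun p => p.Prime ∧ 5 ≤ p) := ⟨_, rfl⟩
  have hPp : ∀ p ∈ P, p.Prime ∧ 5 ≤ p := fun p hp => by
    rw [hP] at hp
    exact (Finset.mem_filter.1 hp).2
  have c1 := RegulatorsInFamilies.result.1 d r F hr hK P hPp (fun l => -(n l : ℤ)) (fun l => 2 * n l + 1) T hTn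
  have c2 := SmallRegulators.result.1 d r F hr hK P hPp (fun l => -(n l : ℤ)) (fun l => 2 * n l + 1) T hTn
  obtain ⟨E₁, hE₁⟩ : ∃ E₁, E₁ = (Fintype.piFinset fun l : Fin d =>
      Finset.Ico (-(n l : ℤ)) (-(n l : ℤ) + ((2 * n l + 1 : ℕ) : ℤ))).filter fun v => F.Marked v ∧
        ∃ p ∈ P, ∃ _ : Fact p.Prime, IsOrdinaryW p (F.curve v) ∧ ¬ F.NonDeg v p := ⟨_, rfl⟩
  obtain ⟨E₂, hE₂⟩ : ∃ E₂, E₂ = (Fintype.piFinset fun l : Fin d =>
      Finset.Ico (-(n l : ℤ)) (-(n l : ℤ) + ((2 * n l + 1 : ℕ) : ℤ))).filter fun v => F.Marked v ∧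
        ∃ p ∈ P, ∃ _ : Fact p.Prime, IsOrdinaryW p (F.curve v) ∧ ¬ Large F p T v := ⟨_, rfl⟩
  rw [← hE₁] at c1
  rw [← hE₂] at c2
  have hsub : S ⊆ ((E₁ ∪ E₂ : Finset (Fin d → ℤ)) : Set (Fin d → ℤ)) := by
    intro v hv
    obtain ⟨h1, h2, h3, h4⟩ := hS v hv
    unfold BestApproximations.Schneider at h1
    push Not at h1
    obtain ⟨hM, p, hp, hp5, hpX, ho, hno⟩ := h1
    have hbox : v ∈ Fintype.piFinset fun l : Fin d =>
        Finset.Ico (-(n l : ℤ)) (-(n l : ℤ) + ((2 * n l + 1 : ℕ) : ℤ)) := by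
      rw [Fintype.mem_piFinset]
      intro l
      have h5 := h4 l
      rw [Finset.mem_Ico]
      push_cast
      omega
    have hpS : p ∈ P := by
      rw [hP, Finset.mem_filter, Finset.mem_range]
      refine ⟨Nat.lt_succ_of_le (Nat.le_floor (hpX.trans ?_)), hp.out, hp5⟩
      exact Real.rpow_le_rpow (norm_nonneg _) h3 hκ
    rw [Finset.mem_coe, Finset.mem_union]
    by_cases hND : F.NonDeg v p
    · right
      rw [hE₂, Finset.mem_filter]
      refine ⟨hbox, hM, p, hpS, hp, ho, fun hL => hno hND (large_mono ?_ hL)⟩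
      apply Nat.le_floor
      exact hTZ.trans (Real.rpow_le_rpow hZ h2 hρ)
    · left
      rw [hE₁, Finset.mem_filter]
      exact ⟨hbox, hM, p, hpS, hp, ho, hND⟩
  refine ⟨(Finset.finite_toSet _).subset hsub, ?_⟩
  have hle := Set.ncard_le_ncard hsub (Finset.finite_toSet _)
  rw [Set.ncard_coe_finset] at hle
  have hle2 : (S.ncard : ℝ) ≤ E₁.card + E₂.card := by
    exact_mod_cast hle.trans (Finset.card_union_le _ _)
  have hsum : (∑ p ∈ P, (p : ℝ) ^ 4) ≤ Y ^ (5 * κ) := by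
    rw [hP]
    refine (sum_primes (Real.rpow_nonneg hY κ)).trans (le_of_eq ?_)
    rw [← Real.rpow_natCast, ← Real.rpow_mul hY]
    norm_num [mul_comm]
  have hRHS : 2 ^ d * r * |(F.K.det : ℝ)| * (∑ p ∈ P, (p : ℝ) ^ 4) * ∏ l : Fin d, ((2 * n l + 1 : ℕ) : ℝ) ≤
      2 ^ d * r * |(F.K.det : ℝ)| * Y ^ (5 * κ) * ∏ l, ((2 * n l + 1 : ℕ) : ℝ) := by
    have h1 : (0 : ℝ) ≤ 2 ^ d * r * |(F.K.det : ℝ)| := by positivity
    apply mul_le_mul_of_nonneg_right _ (Finset.prod_nonneg fun l _ => Nat.cast_nonneg _)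
    exact mul_le_mul_of_nonneg_left hsum h1
  have hT0 : (0 : ℝ) ≤ (T : ℝ) ^ ((1 : ℝ) / r) := by positivity
  calc (S.ncard : ℝ) * (T : ℝ) ^ ((1 : ℝ) / r) ≤ (E₁.card + E₂.card) * (T : ℝ) ^ ((1 : ℝ) / r) :=
        mul_le_mul_of_nonneg_right hle2 hT0
    _ = E₁.card * (T : ℝ) ^ ((1 : ℝ) / r) + E₂.card * (T : ℝ) ^ ((1 : ℝ) / r) := by ring
    _ ≤ _ := by linarith [c1.trans hRHS, c2.trans hRHS]

open scoped Classical in
/-- The tuples `w` in a dyadic box with an exceptional parameter `v` near `(α_1 w_1, …, α_d w_d)`. Here `X` is the largest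
and `M` the smallest side. -/
lemma dyadic {d r : ℕ} (hd : 1 ≤ d) (F : Family d r) (hr : 0 < r) (hK : F.K.det ≠ 0) {κ ρ σ : ℝ} (hκ : 0 ≤ κ)
    (hρ : 0 ≤ ρ) (hσ : 0 ≤ σ) (hσ1 : σ < 1) (α : Fin d → ℝ) (hα : ∀ i, α i ≠ 0) {c : ℝ} (hc : 0 ≤ c) {Q₀ : ℝ}
    (hQ₀ : 0 ≤ Q₀) :
    ∃ K X₀ : ℝ, 0 ≤ K ∧ ∀ (j : Fin d → ℕ) (i₁ i₀ : Fin d), (∀ i, j i ≤ j i₁) → (∀ i, j i₀ ≤ j i) →
      X₀ ≤ (2 : ℝ) ^ (j i₁) → ((2 : ℝ) ^ (j i₁)) ^ σ ≤ Q₀ * (2 : ℝ) ^ (j i₀) →
      ((DBox {w : Fin d → ℕ | ∃ v : Fin d → ℤ, (¬ BestApproximations.Schneider F (‖v‖ ^ κ) (‖v‖ ^ ρ) v) ∧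
        ∀ i, |(v i : ℝ) - α i * w i| ≤ c * (Finset.univ.sup w : ℕ) ^ σ} j).ncard : ℝ) *
          (min (((2 : ℝ) ^ (j i₁)) ^ ρ) ((2 : ℝ) ^ (j i₀))) ^ ((1 : ℝ) / r) ≤
        K * ((2 : ℝ) ^ (j i₁)) ^ (5 * κ + d * σ) * ∏ i, (2 : ℝ) ^ (j i) := by
  have : Nonempty (Fin d) := ⟨⟨0, hd⟩⟩
  have hr0 : (0 : ℝ) < r := by exact_mod_cast hr
  obtain ⟨ia, hia⟩ := Finite.exists_min (fun i => |α i|)
  obtain ⟨a, ha⟩ : ∃ a : ℝ, a = min (|α ia| / 2) 1 := ⟨_, rfl⟩
  have ha0 : 0 < a := by rw [ha]; exact lt_min (by have := abs_pos.2 (hα ia); linarith) one_pos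
  have ha1 : a ≤ 1 := by rw [ha]; exact min_le_right _ _
  have ha2 : ∀ i, a ≤ |α i| / 2 := fun i => by
    have h1 : a ≤ |α ia| / 2 := by rw [ha]; exact min_le_left _ _
    have h2 : |α ia| ≤ |α i| := hia i
    linarith
  -- a natural number `Q` for the size of the boxes
  obtain ⟨Q, hQ⟩ : ∃ Q : ℕ, ∀ i, 2 * |α i| + c * 2 * Q₀ + 1 ≤ Q ∧ 2 * (c * 2 / |α i|) + 1 ≤ Q := by
    obtain ⟨Q, hQ⟩ := exists_nat_ge (∑ i, (2 * |α i| + c * 2 * Q₀ + 1 + (2 * (c * 2 / |α i|) + 1)))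
    refine ⟨Q, fun i => ?_⟩
    have h1 : ∀ k, 0 ≤ 2 * |α k| + c * 2 * Q₀ + 1 + (2 * (c * 2 / |α k|) + 1) := fun k => by positivity
    have h2 := Finset.single_le_sum (fun k _ => h1 k) (Finset.mem_univ i)
    have h3 : 0 ≤ c * 2 / |α i| := by positivity
    have h4 : 0 ≤ 2 * |α i| + c * 2 * Q₀ := by positivity
    constructor <;> linarith
  have hQ1 : (1 : ℝ) ≤ Q := by
    have h1 := (hQ ia).1
    have h4 : 0 ≤ 2 * |α ia| + c * 2 * Q₀ := by positivity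
    linarith
  obtain ⟨X₀, hX₀⟩ : ∃ X₀ : ℝ, X₀ = max (1 / a) ((2 * c / a) ^ (1 / (1 - σ))) := ⟨_, rfl⟩
  obtain ⟨K, hKK⟩ : ∃ K : ℝ, K = (Q : ℝ) ^ d * (2 * (2 ^ d * r * |(F.K.det : ℝ)| * (Q : ℝ) ^ (5 * κ) *
    (3 * (Q : ℝ)) ^ d)) * (2 / a ^ ρ) ^ ((1 : ℝ) / r) := ⟨_, rfl⟩
  have haρ : 0 < a ^ ρ := Real.rpow_pos_of_pos ha0 _
  have haρ1 : a ^ ρ ≤ 1 := Real.rpow_le_one ha0.le ha1 hρ
  refine ⟨K, X₀, by rw [hKK]; positivity, fun j i₁ i₀ hi₁ hi₀ hX hM => ?_⟩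
  obtain ⟨X, hXd⟩ : ∃ X : ℝ, X = (2 : ℝ) ^ (j i₁) := ⟨_, rfl⟩
  obtain ⟨M, hMd⟩ : ∃ M : ℝ, M = (2 : ℝ) ^ (j i₀) := ⟨_, rfl⟩
  rw [← hXd] at hX hM ⊢
  rw [← hMd] at hM ⊢
  have hX1 : 1 ≤ X := by rw [hXd]; exact one_le_pow₀ (by norm_num)
  have hM1 : 1 ≤ M := by rw [hMd]; exact one_le_pow₀ (by norm_num)
  have hX0 : 0 < X := by linarith
  have hXi : ∀ i, (2 : ℝ) ^ (j i) ≤ X := fun i => by
    rw [hXd]; exact pow_le_pow_right₀ (by norm_num) (hi₁ i)
  have hMi : ∀ i, M ≤ (2 : ℝ) ^ (j i) := fun i => by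
    rw [hMd]; exact pow_le_pow_right₀ (by norm_num) (hi₀ i)
  have haX : 1 ≤ a * X := by
    have h1 : 1 / a ≤ X := le_trans (by rw [hX₀]; exact le_max_left _ _) hX
    rw [div_le_iff₀ ha0] at h1
    linarith
  -- the window
  obtain ⟨R, hR⟩ : ∃ R : ℝ, R = c * 2 * X ^ σ := ⟨_, rfl⟩
  have hR0 : 0 ≤ R := by rw [hR]; positivity
  have h2σ : (2 : ℝ) ^ σ ≤ 2 := by
    calc (2 : ℝ) ^ σ ≤ (2 : ℝ) ^ (1 : ℝ) := Real.rpow_le_rpow_of_exponent_le (by norm_num) hσ1.le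
      _ = 2 := Real.rpow_one _
  have hwin : ∀ w : Fin d → ℕ, (∀ i, w i < 2 ^ (j i + 1)) → c * ((Finset.univ.sup w : ℕ) : ℝ) ^ σ ≤ R := by
    intro w hw
    have h1 : ((Finset.univ.sup w : ℕ) : ℝ) ≤ 2 * X := by
      have h2 : Finset.univ.sup w ≤ 2 * 2 ^ (j i₁) := by
        apply Finset.sup_le
        intro i _
        have h3 : 2 ^ (j i) ≤ 2 ^ (j i₁) := Nat.pow_le_pow_right (by norm_num) (hi₁ i)
        have h4 := hw i
        rw [pow_succ] at h4
        omega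
      have h3 : ((Finset.univ.sup w : ℕ) : ℝ) ≤ ((2 * 2 ^ (j i₁) : ℕ) : ℝ) := by exact_mod_cast h2
      rw [hXd]
      push_cast at h3
      exact h3
    rw [hR]
    calc c * ((Finset.univ.sup w : ℕ) : ℝ) ^ σ ≤ c * (2 * X) ^ σ :=
          mul_le_mul_of_nonneg_left (Real.rpow_le_rpow (Nat.cast_nonneg _) h1 hσ) hc
      _ = c * ((2 : ℝ) ^ σ * X ^ σ) := by rw [Real.mul_rpow (by norm_num) hX0.le]
      _ ≤ c * (2 * X ^ σ) := by
          apply mul_le_mul_of_nonneg_left _ hc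
          exact mul_le_mul_of_nonneg_right h2σ (by positivity)
      _ = c * 2 * X ^ σ := by ring
  have hRM : R ≤ c * 2 * Q₀ * M := by
    rw [hR]
    have := mul_le_mul_of_nonneg_left hM (by positivity : 0 ≤ c * 2)
    linarith
  have hRX : R ≤ a * X := by
    have h1 : (2 * c / a) ^ (1 / (1 - σ)) ≤ X := le_trans (by rw [hX₀]; exact le_max_right _ _) hX
    have h2 := Real.rpow_le_rpow (by positivity) h1 (by linarith : 0 ≤ 1 - σ)
    rw [← Real.rpow_mul (by positivity), one_div_mul_cancel (by linarith), Real.rpow_one, div_le_iff₀ ha0] at h2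
    have h3 : X = X ^ (1 - σ) * X ^ σ := by
      rw [← Real.rpow_add hX0, sub_add_cancel, Real.rpow_one]
    have h4 : R = (2 * c) * X ^ σ := by rw [hR]; ring
    rw [h4]
    calc 2 * c * X ^ σ ≤ (X ^ (1 - σ) * a) * X ^ σ := mul_le_mul_of_nonneg_right h2 (by positivity)
      _ = a * (X ^ (1 - σ) * X ^ σ) := by ring
      _ = a * X := by rw [← h3]
  -- the exceptional parameters
  obtain ⟨W, hW⟩ : ∃ W : Set (Fin d → ℕ), W = {w : Fin d → ℕ | ∃ v : Fin d → ℤ,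
    (¬ BestApproximations.Schneider F (‖v‖ ^ κ) (‖v‖ ^ ρ) v) ∧ ∀ i, |(v i : ℝ) - α i * w i| ≤ c * (Finset.univ.sup w : ℕ) ^ σ} :=
    ⟨_, rfl⟩
  rw [← hW]
  obtain ⟨S, hS⟩ : ∃ S : Set (Fin d → ℤ), S = {v | (¬ BestApproximations.Schneider F (‖v‖ ^ κ) (‖v‖ ^ ρ) v) ∧
    ∃ w : Fin d → ℕ, (∀ i, 2 ^ (j i) ≤ w i ∧ w i < 2 ^ (j i + 1)) ∧ ∀ i, |(v i : ℝ) - α i * w i| ≤ R} := ⟨_, rfl⟩
  obtain ⟨T, hT⟩ : ∃ T : ℕ, T = min ⌊(a * X) ^ ρ⌋₊ (2 ^ (j i₀)) := ⟨_, rfl⟩
  have hvb : ∀ v ∈ S, ∀ i, |(v i : ℝ)| ≤ Q * (2 : ℝ) ^ (j i) := by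
    intro v hv i
    rw [hS] at hv
    obtain ⟨-, w, hw, hnear⟩ := hv
    have h1 : (w i : ℝ) ≤ 2 * (2 : ℝ) ^ (j i) := by
      have h2 := (hw i).2.le
      rw [pow_succ] at h2
      have h3 : ((w i : ℕ) : ℝ) ≤ ((2 ^ (j i) * 2 : ℕ) : ℝ) := by exact_mod_cast h2
      push_cast at h3
      linarith
    have h2 : |(v i : ℝ)| ≤ |(v i : ℝ) - α i * w i| + |α i * (w i : ℝ)| := by
      have := abs_add_le ((v i : ℝ) - α i * w i) (α i * w i)
      simpa using this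
    have h3 : |α i * (w i : ℝ)| ≤ |α i| * (2 * (2 : ℝ) ^ (j i)) := by
      rw [abs_mul, abs_of_nonneg (Nat.cast_nonneg (w i) : (0 : ℝ) ≤ w i)]
      exact mul_le_mul_of_nonneg_left h1 (abs_nonneg _)
    have h4 : R ≤ c * 2 * Q₀ * (2 : ℝ) ^ (j i) :=
      hRM.trans (mul_le_mul_of_nonneg_left (hMi i) (by positivity))
    have h5 : (2 * |α i| + c * 2 * Q₀ + 1) * (2 : ℝ) ^ (j i) ≤ Q * (2 : ℝ) ^ (j i) :=
      mul_le_mul_of_nonneg_right (hQ i).1 (by positivity)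
    have h6 : (0 : ℝ) < (2 : ℝ) ^ (j i) := by positivity
    have h7 := hnear i
    nlinarith
  have hvl : ∀ v ∈ S, a * X ≤ ‖v‖ := by
    intro v hv
    rw [hS] at hv
    obtain ⟨-, w, hw, hnear⟩ := hv
    have h1 : X ≤ (w i₁ : ℝ) := by
      rw [hXd]
      exact_mod_cast (hw i₁).1
    have h2 : |α i₁ * (w i₁ : ℝ)| ≤ |(v i₁ : ℝ) - α i₁ * w i₁| + |(v i₁ : ℝ)| := by
      have := abs_add_le (α i₁ * (w i₁ : ℝ) - v i₁) (v i₁)
      rw [abs_sub_comm] at this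
      simpa using this
    have h3 : |α i₁| * X ≤ |α i₁ * (w i₁ : ℝ)| := by
      rw [abs_mul, abs_of_nonneg (Nat.cast_nonneg (w i₁) : (0 : ℝ) ≤ w i₁)]
      exact mul_le_mul_of_nonneg_left h1 (abs_nonneg _)
    have h4 := ha2 i₁
    have h5 : 2 * a * X ≤ |α i₁| * X := mul_le_mul_of_nonneg_right (by linarith) hX0.le
    have h6 : |(v i₁ : ℝ)| ≤ ‖v‖ := by
      have := norm_le_pi_norm v i₁
      rw [Int.norm_eq_abs] at this
      exact this
    have h7 := hnear i₁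
    linarith
  have hb := box_count F hr hK hκ (Y := Q * X) (Z := a * X) (by positivity) hρ T (fun i => Q * 2 ^ (j i)) (by
      intro l
      have h1 : T ≤ 2 ^ (j i₀) := by rw [hT]; exact min_le_right _ _
      have h2 : 2 ^ (j i₀) ≤ 2 ^ (j l) := Nat.pow_le_pow_right (by norm_num) (hi₀ l)
      have h3 : 1 ≤ Q := by exact_mod_cast hQ1
      have h4 : 2 ^ (j l) ≤ Q * 2 ^ (j l) := Nat.le_mul_of_pos_left _ h3
      omega) (by
      have h1 : (T : ℝ) ≤ (⌊(a * X) ^ ρ⌋₊ : ℕ) := by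
        rw [hT]
        exact_mod_cast min_le_left _ _
      exact h1.trans (Nat.floor_le (by positivity))) (by positivity) S (by
      intro v hv
      refine ⟨?_, hvl v hv, ?_, ?_⟩
      · rw [hS] at hv
        exact hv.1
      · rw [pi_norm_le_iff_of_nonneg (by positivity)]
        intro i
        rw [Int.norm_eq_abs]
        exact (hvb v hv i).trans (mul_le_mul_of_nonneg_left (hXi i) (by positivity))
      · intro l
        have h1 := hvb v hv l
        have h2 : (((v l).natAbs : ℕ) : ℝ) ≤ ((Q * 2 ^ (j l) : ℕ) : ℝ) := by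
          rw [Nat.cast_natAbs]
          push_cast
          exact h1
        exact_mod_cast h2)
  obtain ⟨hSfin, hSc⟩ := hb
  -- the tuples near a given parameter
  obtain ⟨U, hU⟩ : ∃ U : (Fin d → ℤ) → Finset (Fin d → ℕ), U = fun v : Fin d → ℤ => Fintype.piFinset fun i : Fin d =>
      (Finset.range (2 ^ (j i + 1))).filter fun w : ℕ => |(v i : ℝ) - α i * (w : ℝ)| ≤ R := ⟨_, rfl⟩
  have hUc : ∀ v, ((U v).card : ℝ) ≤ (Q : ℝ) ^ d * X ^ (d * σ) := by
    intro v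
    rw [hU]
    simp only
    rw [Fintype.card_piFinset]
    push_cast
    have h1 : ∀ i ∈ (Finset.univ : Finset (Fin d)),
        ((((Finset.range (2 ^ (j i + 1))).filter fun w : ℕ => |(v i : ℝ) - α i * (w : ℝ)| ≤ R).card : ℕ) : ℝ) ≤
          Q * X ^ σ := by
      intro i _
      have hai : 0 < |α i| := abs_pos.2 (hα i)
      have hXσ : 1 ≤ X ^ σ := Real.one_le_rpow hX1 hσ
      have h2 := card_near (x := (v i : ℝ) / α i) (R := R / |α i|) (by positivity)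
        ((Finset.range (2 ^ (j i + 1))).filter fun w : ℕ => |(v i : ℝ) - α i * (w : ℝ)| ≤ R) (fun w hw => by
          have h3 := (Finset.mem_filter.1 hw).2
          have h4 : (w : ℝ) - v i / α i = -((v i : ℝ) - α i * w) / α i := by
            field_simp [hα i]
            ring
          rw [h4, abs_div, abs_neg, div_le_div_iff_of_pos_right hai]
          exact h3)
      refine h2.trans ?_
      have h5 := (hQ i).2
      calc 2 * (R / |α i|) + 1 ≤ (2 * (c * 2 / |α i|) + 1) * X ^ σ := by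
            rw [hR]
            have : 2 * (c * 2 * X ^ σ / |α i|) = 2 * (c * 2 / |α i|) * X ^ σ := by ring
            rw [this]
            nlinarith
        _ ≤ Q * X ^ σ := by
          apply mul_le_mul_of_nonneg_right h5
          positivity
    refine (Finset.prod_le_prod (fun i _ => Nat.cast_nonneg _) h1).trans (le_of_eq ?_)
    rw [Finset.prod_const, Finset.card_univ, Fintype.card_fin, mul_pow, ← Real.rpow_natCast (X ^ σ),
      ← Real.rpow_mul hX0.le, mul_comm σ]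
  have hsub : DBox W j ⊆ ((hSfin.toFinset.biUnion U : Finset (Fin d → ℕ)) : Set (Fin d → ℕ)) := by
    rintro w ⟨hwW, hw⟩
    rw [hW] at hwW
    obtain ⟨v, hv, hnear⟩ := hwW
    have hnear' : ∀ i, |(v i : ℝ) - α i * w i| ≤ R := fun i => (hnear i).trans (hwin w fun i => (hw i).2)
    rw [Finset.mem_coe, Finset.mem_biUnion]
    refine ⟨v, ?_, ?_⟩
    · rw [Set.Finite.mem_toFinset, hS]
      exact ⟨hv, w, hw, hnear'⟩
    · rw [hU, Fintype.mem_piFinset]
      intro i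
      rw [Finset.mem_filter, Finset.mem_range]
      exact ⟨(hw i).2, hnear' i⟩
  have h1 := Set.ncard_le_ncard hsub (Finset.finite_toSet _)
  rw [Set.ncard_coe_finset] at h1
  have h2 : ((DBox W j).ncard : ℝ) ≤ S.ncard * ((Q : ℝ) ^ d * X ^ (d * σ)) := by
    have h3 : (((hSfin.toFinset.biUnion U).card : ℕ) : ℝ) ≤ ∑ v ∈ hSfin.toFinset, ((U v).card : ℝ) := by
      exact_mod_cast Finset.card_biUnion_le
    rw [Set.ncard_eq_toFinset_card _ hSfin]
    calc ((DBox W j).ncard : ℝ) ≤ (((hSfin.toFinset.biUnion U).card : ℕ) : ℝ) := by exact_mod_cast h1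
      _ ≤ ∑ v ∈ hSfin.toFinset, ((U v).card : ℝ) := h3
      _ ≤ ∑ v ∈ hSfin.toFinset, (Q : ℝ) ^ d * X ^ (d * σ) := Finset.sum_le_sum fun v _ => hUc v
      _ = _ := by rw [Finset.sum_const, nsmul_eq_mul]
  -- the lower bound for `T`
  have hTl : a ^ ρ / 2 * min (X ^ ρ) M ≤ T := by
    have e1 : 1 ≤ (a * X) ^ ρ := Real.one_le_rpow haX hρ
    have e2 : (a * X) ^ ρ < (⌊(a * X) ^ ρ⌋₊ : ℝ) + 1 := Nat.lt_floor_add_one _
    have e3 : (1 : ℝ) ≤ (⌊(a * X) ^ ρ⌋₊ : ℝ) := by exact_mod_cast Nat.le_floor (by exact_mod_cast e1)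
    have e4 : (a * X) ^ ρ / 2 ≤ (⌊(a * X) ^ ρ⌋₊ : ℝ) := by linarith
    have e5 : (a * X) ^ ρ = a ^ ρ * X ^ ρ := Real.mul_rpow ha0.le hX0.le
    rw [hT]
    push_cast
    rw [← hMd]
    apply le_min
    · calc a ^ ρ / 2 * min (X ^ ρ) M ≤ a ^ ρ / 2 * X ^ ρ :=
            mul_le_mul_of_nonneg_left (min_le_left _ _) (by positivity)
        _ = (a * X) ^ ρ / 2 := by rw [e5]; ring
        _ ≤ _ := e4
    · calc a ^ ρ / 2 * min (X ^ ρ) M ≤ 1 * M := by
            apply mul_le_mul _ (min_le_right _ _) (by positivity) (by norm_num)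
            linarith
        _ = M := one_mul _
  have hmin0 : 0 ≤ min (X ^ ρ) M := by positivity
  have hTl' : (min (X ^ ρ) M) ^ ((1 : ℝ) / r) ≤ (2 / a ^ ρ) ^ ((1 : ℝ) / r) * (T : ℝ) ^ ((1 : ℝ) / r) := by
    rw [← Real.mul_rpow (by positivity) (Nat.cast_nonneg _)]
    apply Real.rpow_le_rpow hmin0 _ (by positivity)
    rw [div_mul_eq_mul_div, le_div_iff₀ haρ]
    linarith
  have hprod : ∏ i, ((2 * (Q * 2 ^ (j i)) + 1 : ℕ) : ℝ) ≤ (3 * (Q : ℝ)) ^ d * ∏ i, (2 : ℝ) ^ (j i) := by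
    have e1 : (3 * (Q : ℝ)) ^ d * ∏ i, (2 : ℝ) ^ (j i) = ∏ i : Fin d, (3 * (Q : ℝ)) * (2 : ℝ) ^ (j i) := by
      rw [Finset.prod_mul_distrib, Finset.prod_const, Finset.card_univ, Fintype.card_fin]
    rw [e1]
    apply Finset.prod_le_prod (fun i _ => Nat.cast_nonneg _)
    intro i _
    push_cast
    have e2 : (1 : ℝ) ≤ Q * (2 : ℝ) ^ (j i) := one_le_mul_of_one_le_of_one_le hQ1 (one_le_pow₀ (by norm_num))
    linarith
  have hfin : (S.ncard : ℝ) * (T : ℝ) ^ ((1 : ℝ) / r) ≤ 2 * (2 ^ d * r * |(F.K.det : ℝ)| *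
      ((Q : ℝ) ^ (5 * κ) * X ^ (5 * κ)) * ((3 * (Q : ℝ)) ^ d * ∏ i, (2 : ℝ) ^ (j i))) := by
    refine hSc.trans ?_
    rw [Real.mul_rpow (by positivity) hX0.le]
    apply mul_le_mul_of_nonneg_left _ (by norm_num)
    exact mul_le_mul_of_nonneg_left hprod (by positivity)
  calc ((DBox W j).ncard : ℝ) * (min (X ^ ρ) M) ^ ((1 : ℝ) / r)
      ≤ (S.ncard * ((Q : ℝ) ^ d * X ^ (d * σ))) * ((2 / a ^ ρ) ^ ((1 : ℝ) / r) * (T : ℝ) ^ ((1 : ℝ) / r)) :=
        mul_le_mul h2 hTl' (by positivity) (by positivity)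
    _ = (S.ncard * (T : ℝ) ^ ((1 : ℝ) / r)) * ((Q : ℝ) ^ d * X ^ (d * σ) * (2 / a ^ ρ) ^ ((1 : ℝ) / r)) := by ring
    _ ≤ (2 * (2 ^ d * r * |(F.K.det : ℝ)| * ((Q : ℝ) ^ (5 * κ) * X ^ (5 * κ)) *
          ((3 * (Q : ℝ)) ^ d * ∏ i, (2 : ℝ) ^ (j i)))) *
          ((Q : ℝ) ^ d * X ^ (d * σ) * (2 / a ^ ρ) ^ ((1 : ℝ) / r)) :=
        mul_le_mul_of_nonneg_right hfin (by positivity)
    _ = K * (X ^ (5 * κ) * X ^ (d * σ)) * ∏ i, (2 : ℝ) ^ (j i) := by
        rw [hKK]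
        ring
    _ = _ := by rw [← Real.rpow_add hX0]

/-- **Theorem.** Let `d, r ≥ 1`, `κ, σ ≥ 0`, `0 ≤ ρ ≤ 1`, `δ ≤ 1`, `d σ + 5 κ < min (ρ, δ) / r`, let `F` be a family with `d`
parameters and `r` sections with nondegenerate height pairing over the function field, `P_1, …, P_d` chains of exponents
`≥ δ`, and let `α_1, …, α_d` be nonzero real numbers. For all `c`, for all `m ∈ [1, N]^d` but `C N ^ (d - η)`, `η > 0`, for
EVERY tuple `w` with `w_i ∈ P_i (m_i)` for all `i` and ALL integral vectors `v` with `|v_i - α_i w_i| ≤ c (max w) ^ σ` for all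
`i`: the member at `v` is not marked, or for ALL primes `p` with `5 ≤ p ≤ |v| ^ κ` at which it is ordinary the `p`-adic
regulators of the `r` points and, if the rank is `r`, of the curve do not vanish and have norm greater than
`1 / ⌊|v| ^ ρ⌋`. -/
theorem result (d r : ℕ) (hd : 1 ≤ d) (hr : 0 < r) (κ ρ σ δ : ℝ) (hκ : 0 ≤ κ) (hρ : 0 ≤ ρ) (hρ1 : ρ ≤ 1) (hσ : 0 ≤ σ)
    (hδ1 : δ ≤ 1) (hlt : d * σ + 5 * κ < min ρ δ / r) (F : Family d r) (hK : F.K.det ≠ 0)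
    (δ' : Fin d → ℝ) (hδ' : ∀ i, δ ≤ δ' i) (P : Fin d → ℕ → Set ℕ) (hP : ∀ i, PChain (δ' i) (P i))
    (α : Fin d → ℝ) (hα : ∀ i, α i ≠ 0) (c : ℝ) :
    ∃ C η : ℝ, 0 < η ∧ ∀ N : ℕ, 1 ≤ N →
      ({m : Fin d → ℕ | (∀ i, 1 ≤ m i ∧ m i ≤ N) ∧ ¬ ∀ w : Fin d → ℕ, (∀ i, w i ∈ P i (m i)) →
        ∀ v : Fin d → ℤ, (∀ i, |(v i : ℝ) - α i * w i| ≤ c * (Finset.univ.sup w : ℕ) ^ σ) →
          BestApproximations.Schneider F (‖v‖ ^ κ) (‖v‖ ^ ρ) v}.ncard : ℝ) ≤ C * (N : ℝ) ^ ((d : ℝ) - η) := by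
  have : Nonempty (Fin d) := ⟨⟨0, hd⟩⟩
  have hr0 : (0 : ℝ) < r := by exact_mod_cast hr
  have hr1 : (1 : ℝ) ≤ r := by exact_mod_cast hr
  have hd1 : (1 : ℝ) ≤ d := by exact_mod_cast hd
  -- the exponents
  obtain ⟨t, ht⟩ : ∃ t : ℝ, t = r * (d * σ + 5 * κ) := ⟨_, rfl⟩
  have ht0 : 0 ≤ t := by rw [ht]; positivity
  have htlt : t < min ρ δ := by
    rw [lt_div_iff₀ hr0] at hlt
    rw [ht]
    linarith
  have htρ : t < ρ := lt_of_lt_of_le htlt (min_le_left _ _)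
  have htδ : t < δ := lt_of_lt_of_le htlt (min_le_right _ _)
  obtain ⟨δ₁, hδ₁⟩ : ∃ δ₁ : ℝ, δ₁ = (t + δ) / 2 := ⟨_, rfl⟩
  have hδ₁t : t < δ₁ := by rw [hδ₁]; linarith
  have hδ₁δ : δ₁ < δ := by rw [hδ₁]; linarith
  have hδ₁0 : 0 < δ₁ := by linarith
  have hσt : σ ≤ t := by
    rw [ht]
    have h1 : σ ≤ d * σ := le_mul_of_one_le_left hσ hd1
    have h2 : d * σ + 5 * κ ≤ r * (d * σ + 5 * κ) := le_mul_of_one_le_left (by positivity) hr1
    linarith
  have hσ1 : σ < 1 := by linarith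
  obtain ⟨e₁, he₁⟩ : ∃ e₁ : ℝ, e₁ = ρ / r - (5 * κ + d * σ) := ⟨_, rfl⟩
  obtain ⟨e₂, he₂⟩ : ∃ e₂ : ℝ, e₂ = δ₁ / r - (5 * κ + d * σ) := ⟨_, rfl⟩
  have htr : t / r = 5 * κ + d * σ := by
    rw [ht]
    field_simp
    ring
  have he₁0 : 0 < e₁ := by
    rw [he₁, ← htr, ← sub_div]
    apply div_pos (by linarith) hr0
  have he₂0 : 0 < e₂ := by
    rw [he₂, ← htr, ← sub_div]
    apply div_pos (by linarith) hr0
  obtain ⟨η₁, hη₁⟩ : ∃ η₁ : ℝ, η₁ = min (δ₁ * e₁) e₂ := ⟨_, rfl⟩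
  have hη₁0 : 0 < η₁ := by rw [hη₁]; exact lt_min (by positivity) he₂0
  obtain ⟨W, hW⟩ : ∃ W : Set (Fin d → ℕ), W = {w : Fin d → ℕ | ∃ v : Fin d → ℤ,
    (¬ BestApproximations.Schneider F (‖v‖ ^ κ) (‖v‖ ^ ρ) v) ∧ ∀ i, |(v i : ℝ) - α i * w i| ≤ |c| * (Finset.univ.sup w : ℕ) ^ σ} :=
    ⟨_, rfl⟩
  have hmain := tuples hd (δ := δ) (F := P) (fun i => ((hP i).spread).mono (by linarith) (hδ' i)) W
    (δ₁ := δ₁) (η₁ := η₁) hδ₁0 hδ₁δ hη₁0 (by
      intro A
      obtain ⟨K, X₀, hK0, hKX⟩ := dyadic hd F hr hK hκ hρ hσ hσ1 α hα (abs_nonneg c) (Q₀ := 2 * ((A : ℝ) + 1))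
        (by positivity)
      -- small `N` are trivial
      obtain ⟨N₀, hN₀⟩ : ∃ N₀ : ℕ, (2 * (|X₀| + 1)) ^ (1 / δ₁) ≤ N₀ := exists_nat_ge _
      obtain ⟨B, hB⟩ : ∃ B : ℝ, B = ((A : ℝ) + 1) ^ (5 * κ + d * σ) * 2 ^ ((1 : ℝ) / r) + 2 ^ e₁ := ⟨_, rfl⟩
      refine ⟨(N₀ : ℝ) ^ η₁ + K * B, by rw [hB]; positivity, fun N j hN hj => ?_⟩
      have hN1 : (1 : ℝ) ≤ N := by exact_mod_cast hN
      have hN0 : (0 : ℝ) < N := by linarith
      have hPj : (0 : ℝ) < ∏ i, (2 : ℝ) ^ (j i) := Finset.prod_pos fun i _ => by positivity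
      have hB0 : 0 ≤ B := by rw [hB]; positivity
      by_cases hNs : N < N₀
      · have h1 : ((DBox W j).ncard : ℝ) ≤ ∏ i, (2 : ℝ) ^ (j i) := by
          have h2 : DBox W j ⊆ ((Fintype.piFinset fun i : Fin d => Finset.Ico (2 ^ (j i)) (2 ^ (j i + 1)) :
              Finset (Fin d → ℕ)) : Set (Fin d → ℕ)) := by
            rintro w ⟨-, hw⟩
            rw [Finset.mem_coe, Fintype.mem_piFinset]
            exact fun i => Finset.mem_Ico.2 (hw i)
          have h3 := Set.ncard_le_ncard h2 (Finset.finite_toSet _)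
          rw [Set.ncard_coe_finset, Fintype.card_piFinset] at h3
          have h4 : ∏ i : Fin d, (Finset.Ico (2 ^ (j i)) (2 ^ (j i + 1))).card = ∏ i : Fin d, 2 ^ (j i) := by
            apply Finset.prod_congr rfl
            intro i _
            rw [Nat.card_Ico, pow_succ]
            omega
          rw [h4] at h3
          exact_mod_cast h3
        have h2 : 1 ≤ (N₀ : ℝ) ^ η₁ * (N : ℝ) ^ (-η₁) := by
          rw [Real.rpow_neg hN0.le, ← div_eq_mul_inv, one_le_div (by positivity)]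
          exact Real.rpow_le_rpow hN0.le (by exact_mod_cast hNs.le) hη₁0.le
        have h3 : 0 ≤ K * B * (N : ℝ) ^ (-η₁) := by positivity
        calc ((DBox W j).ncard : ℝ) ≤ 1 * ∏ i, (2 : ℝ) ^ (j i) := by rw [one_mul]; exact h1
          _ ≤ ((N₀ : ℝ) ^ η₁ + K * B) * (N : ℝ) ^ (-η₁) * ∏ i, (2 : ℝ) ^ (j i) := by
              apply mul_le_mul_of_nonneg_right _ hPj.le
              have : ((N₀ : ℝ) ^ η₁ + K * B) * (N : ℝ) ^ (-η₁) = (N₀ : ℝ) ^ η₁ * (N : ℝ) ^ (-η₁) +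
                K * B * (N : ℝ) ^ (-η₁) := by ring
              rw [this]
              linarith
      · have hNN : (N₀ : ℝ) ≤ N := by exact_mod_cast not_lt.1 hNs
        obtain ⟨i₁, hi₁⟩ := Finite.exists_max j
        obtain ⟨i₀, hi₀⟩ := Finite.exists_min j
        obtain ⟨X, hXd⟩ : ∃ X : ℝ, X = (2 : ℝ) ^ (j i₁) := ⟨_, rfl⟩
        obtain ⟨M, hMd⟩ : ∃ M : ℝ, M = (2 : ℝ) ^ (j i₀) := ⟨_, rfl⟩
        have hX1 : 1 ≤ X := by rw [hXd]; exact one_le_pow₀ (by norm_num)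
        have hX0 : 0 < X := by linarith
        have hM1 : 1 ≤ M := by rw [hMd]; exact one_le_pow₀ (by norm_num)
        have hM0 : 0 < M := by linarith
        have hNM : (N : ℝ) ^ δ₁ ≤ 2 * M := by
          have := (hj i₀).1
          rw [pow_succ, ← hMd] at this
          linarith
        have hNX : (N : ℝ) ^ δ₁ ≤ 2 * X := by
          have := (hj i₁).1
          rw [pow_succ, ← hXd] at this
          linarith
        have hXA : X ≤ ((A : ℝ) + 1) * N := by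
          have h1 := (hj i₁).2
          have h2 : ((2 ^ (j i₁) : ℕ) : ℝ) ≤ ((A * N : ℕ) : ℝ) := by exact_mod_cast h1
          push_cast at h2
          rw [hXd]
          linarith
        have h2 : 2 * (|X₀| + 1) ≤ (N : ℝ) ^ δ₁ := by
          have h3 := Real.rpow_le_rpow (by positivity) (hN₀.trans hNN) hδ₁0.le
          rw [← Real.rpow_mul (by positivity), one_div_mul_cancel hδ₁0.ne', Real.rpow_one] at h3
          exact h3
        have hXX₀ : X₀ ≤ (2 : ℝ) ^ (j i₁) := by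
          rw [← hXd]
          have := le_abs_self X₀
          linarith
        have hXσ : ((2 : ℝ) ^ (j i₁)) ^ σ ≤ 2 * ((A : ℝ) + 1) * (2 : ℝ) ^ (j i₀) := by
          rw [← hXd, ← hMd]
          have hA1 : (1 : ℝ) ≤ (A : ℝ) + 1 := by
            have : (0 : ℝ) ≤ A := Nat.cast_nonneg _
            linarith
          calc X ^ σ ≤ (((A : ℝ) + 1) * N) ^ σ := Real.rpow_le_rpow hX0.le hXA hσ
            _ = ((A : ℝ) + 1) ^ σ * (N : ℝ) ^ σ := Real.mul_rpow (by positivity) hN0.le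
            _ ≤ ((A : ℝ) + 1) ^ (1 : ℝ) * (N : ℝ) ^ δ₁ := by
                apply mul_le_mul (Real.rpow_le_rpow_of_exponent_le hA1 hσ1.le)
                  (Real.rpow_le_rpow_of_exponent_le hN1 (by linarith)) (by positivity) (by positivity)
            _ ≤ ((A : ℝ) + 1) * (2 * M) := by
                rw [Real.rpow_one]
                exact mul_le_mul_of_nonneg_left hNM (by positivity)
            _ = _ := by ring
        have h3 := hKX j i₁ i₀ hi₁ hi₀ hXX₀ hXσ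
        rw [← hW, ← hXd, ← hMd] at h3
        -- the ratio
        have hmin : 0 < min (X ^ ρ) M := lt_min (by positivity) hM0
        have hratio : X ^ (5 * κ + d * σ) ≤ B * (N : ℝ) ^ (-η₁) * (min (X ^ ρ) M) ^ ((1 : ℝ) / r) := by
          rcases le_total (X ^ ρ) M with h | h
          · rw [min_eq_left h, ← Real.rpow_mul hX0.le, mul_one_div]
            have h4 : X ^ (5 * κ + d * σ) = X ^ (-e₁) * X ^ (ρ / r) := by
              rw [← Real.rpow_add hX0, he₁]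
              congr 1
              ring
            rw [h4]
            apply mul_le_mul_of_nonneg_right _ (by positivity)
            have h5 : X ^ (-e₁) ≤ ((N : ℝ) ^ δ₁ / 2) ^ (-e₁) :=
              Real.rpow_le_rpow_of_nonpos (by positivity) (by linarith) (by linarith)
            calc X ^ (-e₁) ≤ ((N : ℝ) ^ δ₁ / 2) ^ (-e₁) := h5
              _ = 2 ^ e₁ * (N : ℝ) ^ (-(δ₁ * e₁)) := by
                  rw [Real.div_rpow (by positivity) (by norm_num), ← Real.rpow_mul hN0.le, Real.rpow_neg (by norm_num) e₁,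
                    div_inv_eq_mul, mul_comm, mul_neg]
              _ ≤ B * (N : ℝ) ^ (-η₁) := by
                  apply mul_le_mul _ _ (by positivity) hB0
                  · rw [hB]
                    have : 0 ≤ ((A : ℝ) + 1) ^ (5 * κ + d * σ) * 2 ^ ((1 : ℝ) / r) := by positivity
                    linarith
                  · apply Real.rpow_le_rpow_of_exponent_le hN1
                    have : η₁ ≤ δ₁ * e₁ := by rw [hη₁]; exact min_le_left _ _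
                    linarith
          · rw [min_eq_right h]
            have h4 : ((N : ℝ) ^ δ₁ / 2) ^ ((1 : ℝ) / r) ≤ M ^ ((1 : ℝ) / r) :=
              Real.rpow_le_rpow (by positivity) (by linarith) (by positivity)
            have h5 : (N : ℝ) ^ (δ₁ / r) ≤ 2 ^ ((1 : ℝ) / r) * M ^ ((1 : ℝ) / r) := by
              have h6 : ((N : ℝ) ^ δ₁ / 2) ^ ((1 : ℝ) / r) = (N : ℝ) ^ (δ₁ / r) / 2 ^ ((1 : ℝ) / r) := by
                rw [Real.div_rpow (by positivity) (by norm_num), ← Real.rpow_mul hN0.le, mul_one_div]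
              rw [h6, div_le_iff₀ (by positivity)] at h4
              linarith
            have h7 : (N : ℝ) ^ (5 * κ + d * σ) = (N : ℝ) ^ (-e₂) * (N : ℝ) ^ (δ₁ / r) := by
              rw [← Real.rpow_add hN0, he₂]
              congr 1
              ring
            have h8 : (N : ℝ) ^ (-e₂) ≤ (N : ℝ) ^ (-η₁) := by
              apply Real.rpow_le_rpow_of_exponent_le hN1
              have : η₁ ≤ e₂ := by rw [hη₁]; exact min_le_right _ _
              linarith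
            calc X ^ (5 * κ + d * σ) ≤ (((A : ℝ) + 1) * N) ^ (5 * κ + d * σ) :=
                  Real.rpow_le_rpow hX0.le hXA (by positivity)
              _ = ((A : ℝ) + 1) ^ (5 * κ + d * σ) * ((N : ℝ) ^ (-e₂) * (N : ℝ) ^ (δ₁ / r)) := by
                  rw [Real.mul_rpow (by positivity) hN0.le, h7]
              _ ≤ ((A : ℝ) + 1) ^ (5 * κ + d * σ) * ((N : ℝ) ^ (-η₁) * (2 ^ ((1 : ℝ) / r) * M ^ ((1 : ℝ) / r))) := by
                  apply mul_le_mul_of_nonneg_left _ (by positivity)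
                  exact mul_le_mul h8 h5 (by positivity) (by positivity)
              _ = (((A : ℝ) + 1) ^ (5 * κ + d * σ) * 2 ^ ((1 : ℝ) / r)) * ((N : ℝ) ^ (-η₁) * M ^ ((1 : ℝ) / r)) := by
                  ring
              _ ≤ B * ((N : ℝ) ^ (-η₁) * M ^ ((1 : ℝ) / r)) := by
                  apply mul_le_mul_of_nonneg_right _ (by positivity)
                  rw [hB]
                  have : (0 : ℝ) ≤ 2 ^ e₁ := by positivity
                  linarith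
              _ = _ := by ring
        have hmr : 0 < (min (X ^ ρ) M) ^ ((1 : ℝ) / r) := by positivity
        have h4 : ((DBox W j).ncard : ℝ) * (min (X ^ ρ) M) ^ ((1 : ℝ) / r) ≤
            (K * B * (N : ℝ) ^ (-η₁) * ∏ i, (2 : ℝ) ^ (j i)) * (min (X ^ ρ) M) ^ ((1 : ℝ) / r) := by
          calc _ ≤ _ := h3
            _ ≤ K * (B * (N : ℝ) ^ (-η₁) * (min (X ^ ρ) M) ^ ((1 : ℝ) / r)) * ∏ i, (2 : ℝ) ^ (j i) := by
                apply mul_le_mul_of_nonneg_right _ hPj.le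
                exact mul_le_mul_of_nonneg_left hratio hK0
            _ = _ := by ring
        have h5 := le_of_mul_le_mul_right h4 hmr
        refine h5.trans ?_
        apply mul_le_mul_of_nonneg_right _ hPj.le
        apply mul_le_mul_of_nonneg_right _ (by positivity)
        have : 0 ≤ (N₀ : ℝ) ^ η₁ := by positivity
        linarith)
  obtain ⟨C, η, hη, h⟩ := hmain
  refine ⟨C, η, hη, fun N hN => le_trans ?_ (h N hN)⟩
  have hfin : {m : Fin d → ℕ | (∀ i, 1 ≤ m i ∧ m i ≤ N) ∧ ∃ w ∈ W, ∀ i, w i ∈ P i (m i)}.Finite := by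
    apply (Set.Finite.pi' fun _ : Fin d => Set.finite_Icc 1 N).subset
    rintro m ⟨hm, _⟩
    exact fun i => hm i
  rw [Nat.cast_le]
  apply Set.ncard_le_ncard _ hfin
  rintro m ⟨hm, hbad⟩
  push Not at hbad
  obtain ⟨w, hw, v, hnear, hv⟩ := hbad
  refine ⟨hm, w, ?_, hw⟩
  rw [hW]
  exact ⟨v, hv, fun i => (hnear i).trans (mul_le_mul_of_nonneg_right (le_abs_self c) (by positivity))⟩

end Pool.Agent.Results.MP_3550b5_nt.DivisorsAndOrders
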