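import Pool.Agent.Zk82.OS.Main
import Pool.Agent.Results.MP_3550b5_nt.BestApproximations

/-!
# Schneider's conjecture in ALL families of elliptic curves with sections, at all parameters which are made of pieces of
# ONE typical real number

A `Family d r` (see `Pool.Agent.Y732.Defs3`) is a Weierstrass equation over `ℤ[t₁, …, t_d]` with `r` sections, all
homogeneous for some weights of the parameters; `F.K` is the height pairing of the sections over the function field.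
`F.Marked t`: the member at `t ∈ ℤ^d` is an elliptic curve and the `r` points are in lowest terms and nonsingular modulo all
primes. `Schneider F X T t` (starting file `BestApproximations`): the member at `t` is not marked, or for ALL primes `p` with
`5 ≤ p ≤ X` at which it is ordinary, the `p`-adic regulators of the `r` points and, if the rank is `r`, of the curve do not
vanish and have norm greater than `1 / ⌊T⌋`.

Let `N_1, …, N_R` be any real functions of the parameters, for instance the coordinates, each one several times. For almost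
EVERY real number `θ` the following is true for ALL families `F` with `d` parameters, and any number `r` of sections, whose
height pairing over the function field is nondegenerate, all `κ ≥ 0`, `0 ≤ ρ ≤ 1`, `b ≥ 2`, `u ≥ 0` and `v_k > 0` with
`∑ v_k > d + 5 κ - ρ / r + R u`: all but finitely many of the parameters `t` such that each `N_k(t)` has a string of about
`v_k log |t| / log b` digits in common with `θ` (`|N_k(t) / b ^ i - b ^ m θ - j| ≤ |t| ^ (- v_k)` for an integer `j`), at any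
place (`b ^ i ≤ b |t| ^ w`), where the `R` strings of `θ` are at pairwise disjoint places up to the `|t| ^ u`-th digit of `θ`,
satisfy `Schneider F (|t| ^ κ) (|t| ^ ρ) t`.

So, if `5 κ < ρ / r`, it is enough that a certain proportion, less than one, of all digits of the coordinates of `t` consists of
`R` pieces, of any lengths, which occur in `θ` at disjoint places, in any order. There is one null set for all families.

The number of the exceptional parameters is bounded in the starting results (`BestApproximations.shell`); the tool for digit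
strings is `Zk82/OS` (helper82, new; the case `R = 1` is the starting file `R942/HX`, there used for Hall's conjecture). There
are only countably many families.
-/

set_option autoImplicit false

namespace Pool.Agent.Results.MP_3550b5_nt.OneTypicalNumber

open MeasureTheory Filter Topology
open Pool.Agent.Y732 Pool.Agent.R89.SR
open Pool.Agent.R942.HX (Sparse)
open Pool.Agent.Zk82.OS (Strings one_number)
open Pool.Agent.Results.MP_3550b5_nt.BestApproximations (Schneider shell large_mono)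

lemma one_le_norm {d : ℕ} {t : Fin d → ℤ} (ht : t ≠ 0) : 1 ≤ ‖t‖ := by
  obtain ⟨i, hi⟩ := Function.ne_iff.1 ht
  refine le_trans ?_ (norm_le_pi_norm t i)
  rw [Int.norm_eq_abs]
  exact_mod_cast Int.one_le_abs hi

lemma schneider_mono {d r : ℕ} {F : Family d r} {X X' T T' : ℝ} (hX : X ≤ X') (hT : T' ≤ T) {t : Fin d → ℤ}
    (h : Schneider F X' T' t) : Schneider F X T t := by
  intro hM p hp h5 hpX hord
  obtain ⟨h1, h2⟩ := h hM p hp h5 (hpX.trans hX) hord
  exact ⟨h1, large_mono (Nat.floor_le_floor hT) h2⟩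

/-- the exceptions -/
def Exc {d r : ℕ} (F : Family d r) (κ ρ : ℝ) : Set (Fin d → ℤ) :=
  {t | t ≠ 0 ∧ ¬ Schneider F (‖t‖ ^ κ) (‖t‖ ^ ρ) t}

lemma expo_nonneg {d r : ℕ} (hd : 1 ≤ d) (hr : 0 < r) {κ ρ : ℝ} (hκ : 0 ≤ κ) (hρ1 : ρ ≤ 1) :
    0 ≤ (d : ℝ) + 5 * κ - ρ / r := by
  have hr0 : (0 : ℝ) < r := by exact_mod_cast hr
  have h1 : ρ / r ≤ 1 := by
    rw [div_le_one hr0]
    exact hρ1.trans (by exact_mod_cast hr)
  have h2 : (1 : ℝ) ≤ d := by exact_mod_cast hd
  linarith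

lemma sparse {d r : ℕ} (hd : 1 ≤ d) (hr : 0 < r) (F : Family d r) (hF : F.K.det ≠ 0) {κ ρ : ℝ} (hκ : 0 ≤ κ)
    (hρ : 0 ≤ ρ) (hρ1 : ρ ≤ 1) :
    Sparse (fun t : Fin d → ℤ => ‖t‖) (Exc F κ ρ) ((d : ℝ) + 5 * κ - ρ / r) := by
  refine ⟨fun t ht => one_le_norm ht.1, fun ε hε => ?_⟩
  have hthin := Pool.Agent.N918.DA.thin_of_shell (expo_nonneg hd hr hκ hρ1) (shell F hr hF hκ hρ hρ1)
  obtain ⟨C, hC⟩ := hthin ε hε
  refine ⟨C, fun X hX => ?_⟩
  have hX0 : 0 ≤ X := by linarith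
  have hfin : {q : Fin d → ℤ | q ∈ {v : Fin d → ℤ | ¬ Schneider F (‖v‖ ^ κ) (‖v‖ ^ ρ) v} ∧
      ∀ i, |(q i : ℝ)| ≤ X}.Finite := (Pool.Agent.N671.DA.box_fin (ι := Fin d) X).subset fun q hq => hq.2
  have hsub : {t | t ∈ Exc F κ ρ ∧ ‖t‖ ≤ X} ⊆
      {q : Fin d → ℤ | q ∈ {v : Fin d → ℤ | ¬ Schneider F (‖v‖ ^ κ) (‖v‖ ^ ρ) v} ∧ ∀ i, |(q i : ℝ)| ≤ X} := by
    rintro t ⟨⟨_, h1⟩, h2⟩
    refine ⟨h1, fun i => ?_⟩
    have h3 := (pi_norm_le_iff_of_nonneg hX0).1 h2 i
    rwa [Int.norm_eq_abs] at h3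
  exact ⟨hfin.subset hsub, le_trans (by exact_mod_cast Set.ncard_le_ncard hsub hfin) (hC X hX)⟩

/-- rational constants -/
lemma approx {d r : ℕ} (hr : 0 < r) {κ ρ U V : ℝ} (hρ : 0 ≤ ρ) (hv : (d : ℝ) + 5 * κ - ρ / r + U < V) :
    ∃ a p : ℚ, κ ≤ a ∧ (0 : ℝ) ≤ p ∧ (p : ℝ) ≤ ρ ∧ (d : ℝ) + 5 * a - p / r + U < V := by
  have hr0 : (0 : ℝ) < r := by exact_mod_cast hr
  have hr1 : (1 : ℝ) ≤ r := by exact_mod_cast hr
  obtain ⟨γ, hγ⟩ : ∃ γ : ℝ, γ = V - ((d : ℝ) + 5 * κ - ρ / r + U) := ⟨_, rfl⟩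
  have hγ0 : 0 < γ := by linarith
  obtain ⟨a, ha1, ha2⟩ := exists_rat_btwn (show κ < κ + γ / 20 by linarith)
  obtain ⟨p, hp0, hp1, hp2⟩ : ∃ p : ℚ, (0 : ℝ) ≤ p ∧ (p : ℝ) ≤ ρ ∧ ρ - γ / 4 ≤ p := by
    rcases hρ.eq_or_lt with h0 | h0
    · exact ⟨0, by simp, by simp [← h0], by simp [← h0]; linarith⟩
    · obtain ⟨p, hp1, hp2⟩ := exists_rat_btwn (show max 0 (ρ - γ / 4) < ρ from max_lt h0 (by linarith))
      exact ⟨p, ((le_max_left _ _).trans_lt hp1).le, hp2.le, ((le_max_right _ _).trans_lt hp1).le⟩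
  refine ⟨a, p, ha1.le, hp0, hp1, ?_⟩
  have h2 : ρ / r - p / r ≤ γ / 4 := by
    rw [← sub_div, div_le_iff₀ hr0]
    nlinarith
  linarith

/-- **Theorem.** Let `d ≥ 1`, `w ≥ 0` and let `N_1, …, N_R` be any real functions on `ℤ^d`. For almost every real number `θ`,
for ALL families `F` with `d` parameters and `r ≥ 1` sections whose height pairing over the function field is nondegenerate,
for all `κ ≥ 0`, `0 ≤ ρ ≤ 1`, `b ≥ 2`, `u ≥ 0` and `v_k > 0` with `∑ v_k > d + 5 κ - ρ / r + R u`: for all but finitely many of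
the `t ∈ ℤ^d` such that the `N_k(t)` have strings in common with `θ` of precision `|t| ^ (- v_k)`, `b ^ i ≤ b |t| ^ w`, at
pairwise disjoint places of `θ` up to its `|t| ^ u`-th digit (`Strings`): the member at `t` is not marked, or for ALL primes `p`
with `5 ≤ p ≤ |t| ^ κ` at which it is ordinary the `p`-adic regulators of the `r` points and, if the rank is `r`, of the curve
do not vanish and have norm greater than `1 / ⌊|t| ^ ρ⌋`. -/
theorem result (d R : ℕ) (hd : 1 ≤ d) (w : ℝ) (hw : 0 ≤ w) (N : Fin R → (Fin d → ℤ) → ℝ) :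
    ∀ᵐ θ : ℝ, ∀ (r : ℕ) (F : Family d r), 0 < r → F.K.det ≠ 0 → ∀ κ ρ : ℝ, 0 ≤ κ → 0 ≤ ρ → ρ ≤ 1 →
      ∀ b : ℕ, 2 ≤ b → ∀ (u : ℝ) (v : Fin R → ℝ), 0 ≤ u → (∀ k, 0 < v k) →
        (d : ℝ) + 5 * κ - ρ / r + R * u < ∑ k, v k →
        {t : Fin d → ℤ | Strings b θ (fun k => N k t) (‖t‖ ^ w) (‖t‖ ^ u) (fun k => ‖t‖ ^ (-(v k))) ∧
          ¬ Schneider F (‖t‖ ^ κ) (‖t‖ ^ ρ) t}.Finite := by
  have key : ∀ᵐ θ : ℝ, ∀ (r : ℕ) (F : Family d r) (a p : ℚ), 0 < r ∧ F.K.det ≠ 0 ∧ (0 : ℝ) ≤ a ∧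
      (0 : ℝ) ≤ p ∧ (p : ℝ) ≤ 1 → ∀ b : ℕ, 2 ≤ b → ∀ (u : ℝ) (v : Fin R → ℝ), 0 ≤ u → (∀ k, 0 < v k) →
        (d : ℝ) + 5 * a - p / r + R * u < ∑ k, v k →
        {t : Fin d → ℤ | t ∈ Exc F a p ∧
          Strings b θ (fun k => N k t) (‖t‖ ^ w) (‖t‖ ^ u) (fun k => ‖t‖ ^ (-(v k)))}.Finite := by
    rw [ae_all_iff]
    intro r
    rw [ae_all_iff]
    intro F
    rw [ae_all_iff]
    intro a
    rw [ae_all_iff]
    intro p
    by_cases h : 0 < r ∧ F.K.det ≠ 0 ∧ (0 : ℝ) ≤ a ∧ (0 : ℝ) ≤ p ∧ (p : ℝ) ≤ 1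
    · filter_upwards [one_number (sparse hd h.1 F h.2.1 h.2.2.1 h.2.2.2.1 h.2.2.2.2)
        (expo_nonneg hd h.1 h.2.2.1 h.2.2.2.2) N hw] with θ hθ _
      exact hθ
    · filter_upwards with θ h1
      exact absurd h1 h
  filter_upwards [key] with θ hθ r F hr hF κ ρ hκ hρ hρ1 b hb u v hu hv0 hv
  obtain ⟨a, p, ha, hp0, hp1, hv'⟩ := approx hr hρ hv
  refine ((hθ r F a p ⟨hr, hF, hκ.trans ha, hp0, hp1.trans hρ1⟩ b hb u v hu hv0 hv').union
    (Set.finite_singleton (0 : Fin d → ℤ))).subset ?_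
  rintro t ⟨h1, h2⟩
  by_cases h0 : t = 0
  · exact Or.inr h0
  · refine Or.inl ⟨⟨h0, fun h3 => h2 ?_⟩, h1⟩
    have h4 := one_le_norm h0
    exact schneider_mono (Real.rpow_le_rpow_of_exponent_le h4 ha) (Real.rpow_le_rpow_of_exponent_le h4 hp1) h3

end Pool.Agent.Results.MP_3550b5_nt.OneTypicalNumber
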