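import Pool.Agent.R482.ST.Radial
import Pool.Agent.R482.ST.Vec
import Pool.Agent.Results.MP_3550b5_nt.BestApproximations

/-!
# Schneider's conjecture in ALL families of elliptic curves with sections, at ALL parameters near the points of a sequence
# on almost every ray

A `Family d r` (see `Pool.Agent.Y732.Defs3`) is a Weierstrass equation over `ℤ[t₁, …, t_d]` with `r` sections, all
homogeneous for some weights of the parameters; `F.K` is the height pairing of the sections over the function field.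
`F.Marked v`: the member at `v` is an elliptic curve and the `r` points are in lowest terms and nonsingular modulo all
primes. `Schneider F X T v` (starting file `BestApproximations`): the member at `v` is not marked, or for ALL primes `p` with
`5 ≤ p ≤ X` at which it is ordinary, the `p`-adic regulators of the `r` points and, if the rank is `r`, of the curve do not
vanish and have norm greater than `1 / ⌊T⌋`.

Let `f_0, f_1, …` be positive functions on `(a, ∞)`, `a ≥ 0`, such that `f_n(x) / x` is nondecreasing and `f_n(x)` has exponent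
of convergence at most `τ` for each `x > a`: for instance `v_n x` with `v_n > 0` of exponent of convergence `τ`, or
`x ^ (v_n)` with `v_n ≥ 1` (`τ = 0`; here `v_n` may grow as slowly as `(log n)^2`), or the iterates of a map `g` with
`g(x) > x` and `g(x) / x` nondecreasing (`τ = 0`).

**Theorem.** Let `κ ≥ 0`, `0 ≤ ρ ≤ 1` and `θ < 1`. For all `u` in `ℝ^d`, `‖u‖ > a`, outside ONE set of Hausdorff dimension at
most `(d + 5 κ - ρ / r + τ) / (1 - θ)`, which is a null set if `d θ + 5 κ + τ < ρ / r`, the following is true for ALL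
families with `d` parameters and `r` sections whose height pairing over the function field is nondegenerate, and all `c`: for
all but finitely many `n`, `Schneider F (|v| ^ κ) (|v| ^ ρ) v` for ALL integral vectors `v` at the distance at most
`c x ^ θ` from the point `x u / ‖u‖`, `x = f_n(‖u‖)`.

The starting results bound the number of the exceptional parameters in boxes by `X ^ (d - 1 / r)`. The windows of the theorem
are much sparser (`log X` of them up to `X` if `f_n = x ^ n` or `f_n = 2 ^ n x`, even `log log X` for orbits), they contain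
`X ^ (d θ)` vectors each, and there is no exception in almost all of them. The starting result `BestApproximations` has the
vectors near hyperplanes instead.

Proof. The count of the starting files in shells (`BestApproximations.shell`) and the theorem on thin sets of vectors and
radial starshaped maps (`Pool/Agent/R482/ST/Radial`, helper482). There are only countably many families.
-/

set_option autoImplicit false

namespace Pool.Agent.Results.MP_3550b5_nt.StarshapedParameters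

open Pool.Agent.Y732 Pool.Agent.R89.SR MeasureTheory
open Pool.Agent.Results.MP_3550b5_nt.BestApproximations (Schneider shell)

/-- the functions `f n` are positive on `(a, ∞)`, `a ≥ 0`, and `f n x / x` is nondecreasing there -/
def Starshaped (a : ℝ) (f : ℕ → ℝ → ℝ) : Prop :=
  0 ≤ a ∧ ∀ n : ℕ, ∀ x y : ℝ, a < x → x ≤ y → 0 < f n x ∧ f n x / x ≤ f n y / y

/-- for each `x > a` the exponent of convergence of the sequence `f n x` is at most `τ` -/
def ExpLe (a : ℝ) (f : ℕ → ℝ → ℝ) (τ : ℝ) : Prop :=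
  ∀ x : ℝ, a < x → ∀ t : ℝ, τ < t → Summable (fun n : ℕ => (f n x) ^ (-t))

/-- one family -/
lemma one {d r : ℕ} (hd : 1 ≤ d) (hr : 0 < r) {κ ρ : ℝ} (hκ : 0 ≤ κ) (hρ : 0 ≤ ρ) (hρ1 : ρ ≤ 1)
    {f : ℕ → ℝ → ℝ} {a τ θ : ℝ} (hf : Starshaped a f) (hτ : 0 ≤ τ) (hv : ExpLe a f τ) (hθ : θ < 1)
    (F : Family d r) (hF : F.K.det ≠ 0) :
    ∃ E : Set (Fin d → ℝ), dimH E ≤ ENNReal.ofReal (((d : ℝ) + 5 * κ - ρ / r + τ) / (1 - θ)) ∧
      ∀ u : Fin d → ℝ, a < ‖u‖ → u ∉ E → ∀ c : ℝ, ∃ n₀ : ℕ, ∀ n : ℕ, n₀ ≤ n → ∀ v : Fin d → ℤ,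
        (∀ i, |(v i : ℝ) - f n ‖u‖ / ‖u‖ * u i| ≤ c * (f n ‖u‖) ^ θ) →
          Schneider F (‖v‖ ^ κ) (‖v‖ ^ ρ) v := by
  have hr0 : (0 : ℝ) < r := by exact_mod_cast hr
  have hs : 0 ≤ (d : ℝ) + 5 * κ - ρ / r := by
    have h1 : ρ / r ≤ 1 := by
      rw [div_le_one hr0]
      exact hρ1.trans (by exact_mod_cast hr)
    have h2 : (1 : ℝ) ≤ d := by exact_mod_cast hd
    linarith
  have hthin := Pool.Agent.N918.DA.thin_of_shell hs (shell F hr hF hκ hρ hρ1)
  haveI : Nonempty (Fin d) := ⟨⟨0, hd⟩⟩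
  have hnorm : ∀ (v : Fin d → ℤ) (X : ℝ), ‖(fun i => (v i : ℝ) : Fin d → ℝ)‖ ≤ X ↔ ∀ i, |(v i : ℝ)| ≤ X := by
    intro v X
    rw [pi_norm_le_iff_of_nonempty]
    rfl
  obtain ⟨E, hE, h1⟩ := Pool.Agent.R482.ST.radial_windows (W := Fin d → ℝ)
    {v : Fin d → ℤ | ¬ Schneider F (‖v‖ ^ κ) (‖v‖ ^ ρ) v} (fun v i => (v i : ℝ)) hf.1 hf.2 hv hs hτ hθ
    (fun ε hε => by
      obtain ⟨C, hC⟩ := hthin ε hε
      refine ⟨C, fun X hX => ?_⟩
      simp only [hnorm]
      exact ⟨(Pool.Agent.N671.DA.box_fin X).subset fun v hv => hv.2, hC X hX⟩)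
  refine ⟨E, hE, fun u hu huE c => ?_⟩
  obtain ⟨n₀, h2⟩ := h1 u hu huE c
  refine ⟨n₀, fun n hn v hnear => ?_⟩
  by_contra hcon
  have h3 := h2 n hn v hcon
  refine absurd h3 (not_lt.2 ?_)
  rw [pi_norm_le_iff_of_nonempty]
  exact hnear

/-- **Theorem.** Let `d, r ≥ 1`, `κ ≥ 0`, `0 ≤ ρ ≤ 1`, let the `f_n` be starshaped on `(a, ∞)` of exponent of convergence at most
`τ`, and `θ < 1`. There is a set `E` of Hausdorff dimension at most `(d + 5 κ - ρ / r + τ) / (1 - θ)`, a null set if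
`d θ + 5 κ + τ < ρ / r`, such that for each `u` in `ℝ^d` outside `E`, `‖u‖ > a`, for ALL families with `d` parameters and `r`
sections with nondegenerate height pairing over the function field and all `c`, for all but finitely many `n`, for ALL
integral vectors `v` with `|v_i - (x / ‖u‖) u_i| ≤ c x ^ θ` for all `i`, `x = f_n(‖u‖)`: the member at `v` is not marked, or for
ALL primes `p` with `5 ≤ p ≤ |v| ^ κ` at which it is ordinary the `p`-adic regulators of the `r` points and, if the rank is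
`r`, of the curve do not vanish and have norm greater than `1 / ⌊|v| ^ ρ⌋`. The functions `v_n x`, `v_n > 0`, are starshaped on
`(0, ∞)`, of exponent `τ` if `v` has exponent of convergence at most `τ`; the functions `x ^ (v_n)`, `v_n ≥ 1`, are starshaped
on `(1, ∞)`, of exponent `0` if the sums of `exp (-t v_n)` converge for `t > 0`; and the iterates of a map `g` with `g(x) > x`
for `x > a` and `g(x) / x` nondecreasing are starshaped on `(a, ∞)`, of exponent `0`. -/
theorem result :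
    (∀ d r : ℕ, 1 ≤ d → 0 < r → ∀ κ ρ : ℝ, 0 ≤ κ → 0 ≤ ρ → ρ ≤ 1 →
      ∀ (f : ℕ → ℝ → ℝ) (a τ θ : ℝ), Starshaped a f → 0 ≤ τ → ExpLe a f τ → θ < 1 →
      ∃ E : Set (Fin d → ℝ), dimH E ≤ ENNReal.ofReal (((d : ℝ) + 5 * κ - ρ / r + τ) / (1 - θ)) ∧
        (d * θ + 5 * κ + τ < ρ / r → volume E = 0) ∧
        ∀ u : Fin d → ℝ, a < ‖u‖ → u ∉ E → ∀ F : Family d r, F.K.det ≠ 0 → ∀ c : ℝ, ∃ n₀ : ℕ, ∀ n : ℕ, n₀ ≤ n →
          ∀ v : Fin d → ℤ, (∀ i, |(v i : ℝ) - f n ‖u‖ / ‖u‖ * u i| ≤ c * (f n ‖u‖) ^ θ) →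
            Schneider F (‖v‖ ^ κ) (‖v‖ ^ ρ) v) ∧
    (∀ (v : ℕ → ℝ) (τ : ℝ), (∀ n, 0 < v n) → (∀ t : ℝ, τ < t → Summable (fun n : ℕ => (v n) ^ (-t))) →
      Starshaped 0 (fun n x => v n * x) ∧ ExpLe 0 (fun n x => v n * x) τ) ∧
    (∀ v : ℕ → ℝ, (∀ n, 1 ≤ v n) → (∀ t : ℝ, 0 < t → Summable fun n : ℕ => Real.exp (-(t * v n))) →
      Starshaped 1 (fun n x => x ^ (v n)) ∧ ExpLe 1 (fun n x => x ^ (v n)) 0) ∧
    (∀ (a : ℝ) (g : ℝ → ℝ), 0 ≤ a → (∀ x y : ℝ, a < x → x ≤ y → g x / x ≤ g y / y) → (∀ x : ℝ, a < x → x < g x) →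
      Starshaped a (fun n x => g^[n] x) ∧ ExpLe a (fun n x => g^[n] x) 0) := by
  refine ⟨fun d r hd hr κ ρ hκ hρ hρ1 f a τ θ hf hτ hv hθ => ?_, Pool.Agent.R482.ST.ex_mul,
    Pool.Agent.R482.ST.ex_pow, Pool.Agent.R482.ST.ex_orbit⟩
  have key : ∀ F : {F : Family d r // F.K.det ≠ 0}, ∃ E : Set (Fin d → ℝ),
      dimH E ≤ ENNReal.ofReal (((d : ℝ) + 5 * κ - ρ / r + τ) / (1 - θ)) ∧
      ∀ u : Fin d → ℝ, a < ‖u‖ → u ∉ E → ∀ c : ℝ, ∃ n₀ : ℕ, ∀ n : ℕ, n₀ ≤ n → ∀ v : Fin d → ℤ,
        (∀ i, |(v i : ℝ) - f n ‖u‖ / ‖u‖ * u i| ≤ c * (f n ‖u‖) ^ θ) →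
          Schneider F.1 (‖v‖ ^ κ) (‖v‖ ^ ρ) v := fun F =>
    one hd hr hκ hρ hρ1 hf hτ hv hθ F.1 F.2
  choose E hE hE2 using key
  have hdim : dimH (⋃ F, E F) ≤ ENNReal.ofReal (((d : ℝ) + 5 * κ - ρ / r + τ) / (1 - θ)) := by
    rw [dimH_iUnion]
    exact iSup_le hE
  refine ⟨⋃ F, E F, hdim, fun hlt => ?_, fun u hu huE F hF c => ?_⟩
  · have hθ' : 0 < 1 - θ := by linarith
    have hd0 : (0 : ℝ) < d := by exact_mod_cast hd
    have h1 : ((d : ℝ) + 5 * κ - ρ / r + τ) / (1 - θ) < d := by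
      rw [div_lt_iff₀ hθ']
      nlinarith
    have h2 : dimH (⋃ F, E F) < ((d : ℕ) : ENNReal) := by
      refine hdim.trans_lt ?_
      have h3 : ((d : ℕ) : ENNReal) = ENNReal.ofReal (d : ℝ) := by
        rw [ENNReal.ofReal_natCast]
      rw [h3]
      exact (ENNReal.ofReal_lt_ofReal_iff hd0).2 h1
    have h4 : (volume : Measure (Fin d → ℝ)) = Measure.hausdorffMeasure (d : ℝ) := by
      have := hausdorffMeasure_pi_real (ι := Fin d)
      rw [Fintype.card_fin] at this
      exact this.symm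
    rw [h4]
    have h5 := hausdorffMeasure_of_dimH_lt (s := ⋃ F, E F) (d := (d : NNReal)) (by
      simpa using h2)
    simpa using h5
  · have h1 : u ∉ E ⟨F, hF⟩ := fun h => huE (Set.mem_iUnion.2 ⟨_, h⟩)
    exact hE2 ⟨F, hF⟩ u hu h1 c

end Pool.Agent.Results.MP_3550b5_nt.StarshapedParameters
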